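import Mathlib
import Pool.Agent.Q225.SP.Xor
import Pool.Agent.Q225.SP.Local

/-!
# OMV over the field with two elements: readings weighted by dependence

The decision version of OMV over `ZMod 2`: given an `n × n` matrix `M` and `n` pairs `(u_i, v_i)` of
vectors, is some product `u_iᵀ M v_i` equal to one? The items of the input are the matrix and the
pairs.

A real formula (`Fml`, `Pool.Agent.Y638.RF.Defs`) is built from real constants, arbitrary real
functions of one item, and arbitrary real functions of `w` words of `c` bits, where each word is an
arbitrary function of one item, by sums, products, sign tests `pos` (with the values `0`, `1`), and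
gates `sym` of any fan-in whose value is an arbitrary real function of the number of positive inputs.
In a branching program (`BP`) every inner node tests whether a real formula accepts.

A circuit (`Circuit`, `Pool.Agent.Q225.SP.Defs`) consists of any number of gates. Each gate is a
branching program of size at most `n ^ a` which may read the items and the bits computed by all
earlier gates (in the formulas, the bits of the earlier gates are further items). A bit may be used
any number of times. The load of a circuit is the number of readings, where the reading of a pair of
vectors counts one, and the reading of a bit counts the number of pairs on which this bit depends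
(directly, or by other gates). So everything that is computed from the matrix alone (in any number of
gates) is free, and it may be read free of charge.

1. Random circuits with error probability at most `1 / 3` need
   `n ^ 3 ≤ 1300 (a log₂ n + w c) E [load]`, for `n ≥ 256` and `1 ≤ a ≤ n`.
2. If each bit that may be used depends on at most `d` pairs, then the expected number of readings
   is at least `n ^ 3 / (1300 d (a log₂ n + w c))`.
3. Multiplication by words of length `c` is a circuit without shared gates (`w = 2`, words of length
   `c + 1`) with load at most `4 n ^ 2 (⌊n / c⌋ + 1)`, so the first bound is optimal up to a constant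
   factor for all `c` between `a log₂ n` and `n`.

The starting result `RealPrograms` in this folder is about branching programs over real formulas,
without shared bits.

Proof. The pair `(u_i, v_i)` can ask for each of the `n ^ 2` entries of the matrix. We count the
functions of this pair which arise at the gates which depend on it, when the other items are fixed:
for given functions at the earlier gates, a gate is a branching program in one item (the pair with the
functions of the earlier dependent gates) and in independent parameters (everything else, also the
bits of the gates which do not depend on the pair), which has `2 ^ O (r (log n + w c))` functions, if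
`r` readings depend on the pair (Warren's bound, `Pool.Agent.Y638.RF.Prog`). The sum of these numbers
`r` over all gates and all pairs is the load.
-/

set_option autoImplicit false

namespace Pool.Agent.Results.MP_0f1f76_lc.DependenceWeightedReads

open Pool.Agent.TH697.Form (IsProb)
open Pool.Agent.TH697.Row (ApproximatesOn)
open Pool.Agent.Y638.RF.Xor (Item product)
open Pool.Agent.Q225.SP

theorem result :
    (∀ n a c w : ℕ, 256 ≤ n → 1 ≤ a → a ≤ n → 1 ≤ w →
      ∀ (Ω : Type) [Fintype Ω] (μ : Ω → ℝ), IsProb μ →
        ∀ C : Ω → Circuit (Option (Fin n)) (Item n) w (2 ^ c), (∀ ω, (C ω).SizeLE (n ^ a)) →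
          ApproximatesOn μ (fun ω => (C ω).eval) (fun _ => True) (product n) →
          (n : ℝ) ^ 3 ≤ 1300 * (a * Real.logb 2 n + w * c) *
            mean μ (fun ω => (C ω).load (somes n))) ∧
    (∀ n a c w d : ℕ, 256 ≤ n → 1 ≤ a → a ≤ n → 1 ≤ w → 1 ≤ d →
      ∀ (Ω : Type) [Fintype Ω] (μ : Ω → ℝ), IsProb μ →
        ∀ C : Ω → Circuit (Option (Fin n)) (Item n) w (2 ^ c), (∀ ω, (C ω).SizeLE (n ^ a)) →
          (∀ ω, (C ω).IsLocal (somes n) d) →
          ApproximatesOn μ (fun ω => (C ω).eval) (fun _ => True) (product n) →
          (n : ℝ) ^ 3 ≤ 1300 * (a * Real.logb 2 n + w * c) *
            (d * mean μ (fun ω => (C ω).reads))) ∧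
    (∀ n c : ℕ, 1 ≤ c → ∃ C : Circuit (Option (Fin n)) (Item n) 2 (2 ^ (c + 1)), C.shared = 0 ∧
      C.load (somes n) ≤ 4 * n ^ 2 * (n / c + 1) ∧ ∀ x, C.eval x = product n x) := by
  refine ⟨fun _ _ _ _ hn ha han hw _ _ μ hμ C hC hF => xor_bound hn ha han hw μ hμ C hC hF,
    fun n a c w d hn ha han hw hd _ _ μ hμ C hC hL hF => ?_, fun _ _ hc => xor_upper hc⟩
  refine local_bound μ hμ (somes n) d hd C hL ?_ (xor_bound hn ha han hw μ hμ C hC hF)
  have h1 : 0 ≤ Real.logb 2 (n : ℝ) :=
    Real.logb_nonneg (by norm_num) (by exact_mod_cast (by omega : 1 ≤ n))
  positivity

end Pool.Agent.Results.MP_0f1f76_lc.DependenceWeightedReads
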