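import Mathlib
import Pool.Agent.Q225.NN.Good
import Pool.Agent.Q225.NN.Upper

/-!
# OMV over the field with two elements: neural networks

The decision version of OMV over `ZMod 2`: given an `n × n` matrix `M` and `n` pairs `(u_i, v_i)` of
vectors, is some product `u_iᵀ M v_i` equal to one? The items of the input are the matrix and the
pairs.

A neural network (`Net ι D G k p d h`, `Pool.Agent.Q225.NN.Defs`) has a finite set `G` of neurons on
`h` levels. A neuron has `k` channels; on each channel it gets a linear form, with arbitrary real
weights and of any fan-in, of the values of the neurons of lower levels, plus arbitrary real functions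
of each single item. Its value is a piecewise polynomial function of the `k` numbers on its channels:
the signs of `p` polynomials are determined, and then a polynomial, which depends on these signs, is
evaluated; all degrees are at most `d`. So threshold gates (with values `0` and `1`), rectified linear
units, maxima, comparisons and products, of linear forms of any number of values, are allowed. The
network accepts if the value of the output neuron is positive; the margin may be arbitrarily small.
There is no restriction on the use of the value of a neuron by other neurons. The load (`load`) is the
number of pairs of a neuron and of a pair `(u_i, v_i)` on which the value of the neuron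
depends, directly or by other neurons. The neurons which depend only on the matrix are free.

Result: random networks with error probability at most `1 / 3` and `|G| (p + 1) d ^ h ≤ n ^ a` need
`n ^ 3 / (49 a log₂ n) ≤ (h + 1) k E [load] + n`, for `n ≥ 256` and `a ≥ 1`; if the pieces are constant
(`Steps`), for instance for threshold gates, `n ^ 3 / (49 a log₂ n) ≤ k E [load] + n` holds for any
number of levels. Conversely, a network with `k = 1`, with `n ^ 3` threshold gates, `n` neurons with
`n ^ 2 + 1` thresholds and one output neuron has a load of at most `n ^ 3 + 2 n` and answers the
question. So the exponent three is optimal.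

Proof. The pair `(u_i, v_i)` can ask for each of the `n ^ 2` entries of the matrix. If the other items are fixed, then the value of the
network as a function of `(u_i, v_i)` is determined by the `k` numbers which the other neurons and items
contribute to each neuron that depends on `(u_i, v_i)`. So if `r` neurons depend on `(u_i, v_i)`, the functions
of `(u_i, v_i)` which occur are given by `k r` real parameters, and the signs of all tests are those of
polynomials of degree at most `d ^ h` in these parameters, which are determined level by level; by
Warren's theorem there are at most `M ^ ((h + 1) k r + 1)` functions, `log₂ M = O (a log₂ n)`, and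
`M ^ (k r + 1)` if the pieces are constant (then the tests have degree `d` for each choice of the values
of the neurons on which they depend, and a network with threshold gates is determined by them).
-/

set_option autoImplicit false

namespace Pool.Agent.Results.MP_0f1f76_lc.NeuralNetworks

open Pool.Agent.TH697.Form (IsProb)
open Pool.Agent.TH697.Row (ApproximatesOn)
open Pool.Agent.Y638.RF.Xor (Item product)
open Pool.Agent.Q225.SP (somes card_somes)
open Pool.Agent.Q225.LS (good_pairs asks_somes)
open Pool.Agent.Q225.NN

theorem result : (∀ n a : ℕ, 256 ≤ n → 1 ≤ a →
    ∀ (G : Type) [Fintype G] (k p d h : ℕ) (Ω : Type) [Fintype Ω] (μ : Ω → ℝ), IsProb μ →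
      ∀ N : Ω → Net (Option (Fin n)) (Item n) G k p d h,
      ApproximatesOn μ (fun ω => (N ω).accepts) (fun _ => True) (product n) →
        (1 ≤ d → Fintype.card G * (p + 1) * d ^ h ≤ n ^ a →
          (n : ℝ) ^ 3 / (49 * a * Real.logb 2 n) ≤
            (h + 1) * k * mean μ (fun ω => (N ω).load (somes n)) + n) ∧
        ((∀ ω, (N ω).Steps) → Fintype.card G * (p + 1) * d ≤ n ^ a →
          (n : ℝ) ^ 3 / (49 * a * Real.logb 2 n) ≤
            k * mean μ (fun ω => (N ω).load (somes n)) + n)) ∧
    ∀ n : ℕ, ∃ N : Net (Option (Fin n)) (Item n)
      ((Fin n × Fin n × Fin n) ⊕ (Fin n ⊕ Unit)) 1 (n ^ 2 + 1) 1 3, N.Steps ∧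
        N.load (somes n) ≤ n ^ 3 + 2 * n ∧ ∀ x, N.accepts x = product n x := by
  refine ⟨fun n a hn ha G _ k p d h Ω _ μ hμ N hF => ?_, xor_upper⟩
  have hg := good_pairs hn ha
  have hk := asks_somes (D := Item n) (f := product n) (Pool.Agent.Y638.RF.Xor.asks)
  refine ⟨fun hd hL => ?_, fun hN hL => ?_⟩
  · have h := net_bound hg hk hd hL μ hμ N hF
    rwa [card_somes] at h
  · have h := steps_bound hg hk hL μ hμ N hN hF
    rwa [card_somes] at h

end Pool.Agent.Results.MP_0f1f76_lc.NeuralNetworks
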