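import Mathlib
import Pool.Agent.Q225.LS.Good

/-!
# OMV over the field with two elements: few qubits

The decision version of OMV over `ZMod 2`: given an `n × n` matrix `M` and `n` pairs `(u_i, v_i)` of
vectors, is some product `u_iᵀ M v_i` equal to one? The items of the input are the matrix and the
pairs. So everything may be known about the matrix at any time, and only the reads of the pairs are
counted.

The memory of a machine (`Machine`, `Pool.Agent.Q225.LS.Defs`) is a vector with the coordinates `S`
over a field. In each step one item is read, and the vector is multiplied by a matrix which is an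
arbitrary function of this item; the order of the reads is fixed in advance (but it may be random, since
we consider random machines). At the end a linear function of the vector is computed; the machine
accepts if its value is positive (`positive`, over the real numbers), or if it is not zero
(`nonzero`, over any field). So there are no restrictions on the numbers in the memory and on the
computation, and the gap between acceptance and rejection may be arbitrarily small. Such machines
contain all oblivious algorithms with `log₂ |S|` bits of memory, deterministic, randomised with
unbounded error, nondeterministic or counting modulo a prime. In a quantum machine (`Quantum`) the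
memory is a vector in `ℂ ^ S` (`k` qubits: `|S| = 2 ^ k`), the matrices are arbitrary complex matrices
(so postselection is allowed), and the machine accepts if the last state is more than half in the
accepting basis states.

Result: random machines with error probability at most `1 / 3` and at most `n ^ a` reads of pairs need
`n ^ 3 / (49 a log₂ n) ≤ |S| ^ 2 (E [reads] + n)`, for `n ≥ 256` and `a ≥ 1`, and quantum machines need
`n ^ 3 / (49 a log₂ n) ≤ 16 |S| ^ 4 (E [reads] + n)`. So OMV needs `n ^ (3 - o (1))` reads with
`o (log n)` qubits, even if the two outcomes of the machines are arbitrarily close to `1 / 2`.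

Proof. The pair `(u_i, v_i)` can ask for each of the `n ^ 2` entries of the matrix. If the other items are fixed and `(u_i, v_i)` is read `r` times, then the
value of the machine is a polynomial of degree `r + 1` in `(r + 1) |S| ^ 2` parameters, the entries of
the matrices of the steps between these reads. So `(u_i, v_i)` has at most `N ^ ((r + 1) |S| ^ 2)` functions,
`log₂ N = O (a log₂ n)`, by the theorems of Warren (signs) and of Rónyai, Babai and Ganapathy (zero
patterns). The state of a quantum machine is replaced by its tensor square over the real numbers.
-/

set_option autoImplicit false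

namespace Pool.Agent.Results.MP_0f1f76_lc.VectorMemory

open Pool.Agent.TH697.Form (IsProb)
open Pool.Agent.TH697.Row (ApproximatesOn)
open Pool.Agent.Y638.RF.Xor (Item product)
open Pool.Agent.Q225.SP (somes card_somes)
open Pool.Agent.Q225.LS

theorem result : ∀ n a : ℕ, 256 ≤ n → 1 ≤ a →
    ∀ (S : Type) [Fintype S] [DecidableEq S] (Ω : Type) [Fintype Ω] (μ : Ω → ℝ), IsProb μ →
      (∀ C : Ω → Machine (Option (Fin n)) (Item n) S ℝ,
        (∀ ω, (C ω).reads (somes n) ≤ n ^ a) →
        ApproximatesOn μ (fun ω => (C ω).positive) (fun _ => True) (product n) →
        (n : ℝ) ^ 3 / (49 * a * Real.logb 2 n) ≤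
          (Fintype.card S : ℝ) ^ 2 * (mean μ (fun ω => (C ω).reads (somes n)) + n)) ∧
      (∀ (F : Type) [Field F] (C : Ω → Machine (Option (Fin n)) (Item n) S F),
        (∀ ω, (C ω).reads (somes n) ≤ n ^ a) →
        ApproximatesOn μ (fun ω => (C ω).nonzero) (fun _ => True) (product n) →
        (n : ℝ) ^ 3 / (49 * a * Real.logb 2 n) ≤
          (Fintype.card S : ℝ) ^ 2 * (mean μ (fun ω => (C ω).reads (somes n)) + n)) ∧
      (∀ C : Ω → Quantum (Option (Fin n)) (Item n) S,
        (∀ ω, (C ω).reads (somes n) ≤ n ^ a) →
        ApproximatesOn μ (fun ω => (C ω).eval) (fun _ => True) (product n) →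
        (n : ℝ) ^ 3 / (49 * a * Real.logb 2 n) ≤
          16 * (Fintype.card S : ℝ) ^ 4 * (mean μ (fun ω => (C ω).reads (somes n)) + n)) := by
  intro n a hn ha S _ _ Ω _ μ hμ
  have hg := good_pairs hn ha
  have hk := asks_somes (D := Item n) (f := product n) (Pool.Agent.Y638.RF.Xor.asks)
  refine ⟨fun C hL hF => ?_, fun F _ C hL hF => ?_, fun C hL hF => ?_⟩
  · have h := positive_bound hg hk μ hμ C hL hF
    rwa [card_somes] at h
  · have h := nonzero_bound hg hk μ hμ C hL hF
    rwa [card_somes] at h
  · have h := quantum_bound hg hk μ hμ C hL hF
    rwa [card_somes] at h

end Pool.Agent.Results.MP_0f1f76_lc.VectorMemory
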